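import Mathlib

set_option autoImplicit false

namespace Pool.Agent.Results.MP_513688_co.Counter

open Matrix

def M : Matrix (Fin 4) (Fin 4) ℤ := !![2, 0, 1, 1; 1, 1, 2, 0; 1, 1, 0, 2; 0, 2, 1, 1]

theorem pw (r : ℕ) : M ^ (r + 3) = Matrix.of fun _ _ => 16 * 4 ^ r := by
  induction r with
  | zero => decide +kernel
  | succ r ih =>
    rw [show r + 1 + 3 = (r + 3) + 1 by ring, pow_succ', ih]
    ext i j
    fin_cases i <;> simp [M, Matrix.mul_apply, Fin.sum_univ_four] <;> ring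

theorem hs (X : Matrix (Fin 4) (Fin 4) ℂ) (i : Fin 4) :
    HasSum (fun r : ℕ => ((r.factorial : ℂ)⁻¹) * (X ^ r) i i) (NormedSpace.exp X i i) := by
  have h : HasSum (fun r : ℕ => ((r.factorial : ℂ)⁻¹) • X ^ r) (NormedSpace.exp X) :=
    open scoped Matrix.Norms.Operator in NormedSpace.exp_series_hasSum_exp' (𝕂 := ℂ) X
  exact Pi.hasSum.mp (Pi.hasSum.mp h i) i

theorem cast_pow (r : ℕ) (i j : Fin 4) :
    ((M.map (Int.cast : ℤ → ℂ)) ^ r) i j = ((M ^ r) i j : ℤ) := by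
  have := map_pow (Int.castRingHom ℂ).mapMatrix M r
  exact (congrFun (congrFun this i) j).symm

theorem result : ∃ (n : ℕ) (A : Matrix (Fin n) (Fin n) ℝ),
    (∀ u v, 0 ≤ A u v ∧ IsAlgebraic ℚ (A u v)) ∧
    (¬ ∃ (P : Matrix (Fin n) (Fin n) ℂ) (d : Fin n → ℂ), IsUnit P ∧
      A.map Complex.ofReal = P * diagonal d * P⁻¹) ∧
    ∃ β : ℂ, β ≠ 0 ∧ IsAlgebraic ℚ β ∧ ∃ i j : Fin n,
      NormedSpace.exp (β • A.map Complex.ofReal) i i =
        NormedSpace.exp (β • A.map Complex.ofReal) j j ∧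
      ∃ r : ℕ, (A ^ r) i i ≠ (A ^ r) j j := by
  have e : (M.map (Int.cast : ℤ → ℝ)).map Complex.ofReal = M.map (Int.cast : ℤ → ℂ) := by
    ext i j; simp
  refine ⟨4, M.map (Int.cast : ℤ → ℝ), fun u v => ⟨?_, ?_⟩, ?_, 1, one_ne_zero, isAlgebraic_one,
    1, 2, ?_, 1, ?_⟩
  · have : ∀ u v, 0 ≤ M u v := by decide
    simpa using this u v
  · exact isAlgebraic_int _
  · rintro ⟨P, d, hP, h⟩
    rw [e] at h
    have hd : IsUnit P.det := (isUnit_iff_isUnit_det P).mp hP
    have pw2 : ∀ r : ℕ, (M.map (Int.cast : ℤ → ℂ)) ^ r = P * diagonal (fun k => d k ^ r) * P⁻¹ := by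
      intro r
      induction r with
      | zero => simp [mul_nonsing_inv P hd]
      | succ r ih =>
        rw [pow_succ, ih, h]
        have : diagonal (fun k => d k ^ (r + 1)) = diagonal (fun k => d k ^ r) * diagonal d := by
          rw [diagonal_mul_diagonal]; simp [pow_succ]
        rw [this]
        simp only [Matrix.mul_assoc, nonsing_inv_mul_cancel_left P _ hd]
    have h4 : (M.map (Int.cast : ℤ → ℂ)) ^ 4 = (4 : ℂ) • (M.map (Int.cast : ℤ → ℂ)) ^ 3 := by
      ext i j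
      rw [Matrix.smul_apply, cast_pow, cast_pow, pw 1, pw 0]; simp; norm_num
    rw [pw2, pw2, ← Matrix.smul_mul, ← Matrix.mul_smul] at h4
    have h5 := congrArg (fun X => P⁻¹ * X * P) h4
    simp only [Matrix.mul_assoc, nonsing_inv_mul_cancel_left P _ hd, nonsing_inv_mul P hd,
      Matrix.mul_one] at h5
    have h6 : ∀ k, d k ^ 2 = 4 * d k ^ 1 := by
      intro k
      have := congrFun (congrFun h5 k) k
      simp only [diagonal_apply_eq, Matrix.smul_apply, smul_eq_mul] at this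
      by_cases h0 : d k = 0
      · simp [h0]
      · have h7 : d k ^ 2 * (d k ^ 2 - 4 * d k ^ 1) = 0 := by linear_combination this
        rcases mul_eq_zero.mp h7 with h8 | h8
        · exact absurd (pow_eq_zero_iff (two_ne_zero) |>.mp h8) h0
        · linear_combination h8
    have h7 : (M.map (Int.cast : ℤ → ℂ)) ^ 2 = (4 : ℂ) • (M.map (Int.cast : ℤ → ℂ)) ^ 1 := by
      rw [pw2, pw2, ← Matrix.smul_mul, ← Matrix.mul_smul]
      congr 2
      ext a b
      by_cases hab : a = b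
      · subst hab; simp [h6]
      · simp [hab]
    have := congrFun (congrFun h7 0) 0
    rw [Matrix.smul_apply, cast_pow, cast_pow] at this
    have a1 : (M ^ 2) 0 0 = 5 := by decide +kernel
    have a2 : (M ^ 1) 0 0 = 2 := by decide +kernel
    rw [a1, a2] at this
    norm_num at this
  · rw [e, one_smul]
    have h := (hs (M.map (Int.cast : ℤ → ℂ)) 1).sub (hs (M.map (Int.cast : ℤ → ℂ)) 2)
    have h2 := hasSum_sum_of_ne_finset_zero (L := SummationFilter.unconditional ℕ) (s := Finset.range 3)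
      (f := fun r : ℕ => ((r.factorial : ℂ)⁻¹) * ((M.map (Int.cast : ℤ → ℂ)) ^ r) 1 1 -
        ((r.factorial : ℂ)⁻¹) * ((M.map (Int.cast : ℤ → ℂ)) ^ r) 2 2) (by
        intro b hb
        obtain ⟨r, rfl⟩ : ∃ r, b = r + 3 := ⟨b - 3, by simp at hb; omega⟩
        simp only [cast_pow, pw]; simp)
    have h3 := h.unique h2
    have a0 : (M ^ 0) 1 1 = 1 ∧ (M ^ 0) 2 2 = 1 ∧ (M ^ 1) 1 1 = 1 ∧ (M ^ 1) 2 2 = 0 ∧
      (M ^ 2) 1 1 = 3 ∧ (M ^ 2) 2 2 = 5 := by decide +kernel
    simp only [Finset.sum_range_succ, Finset.sum_range_zero, cast_pow, a0] at h3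
    rw [← sub_eq_zero, h3]
    norm_num [Nat.factorial]
  · simp [M]

end Pool.Agent.Results.MP_513688_co.Counter
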